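import Mathlib

set_option autoImplicit false

/-!
# A monomial germ of `ℂ³` whose orders of iterates satisfy no linear recursion

The map `F(x,y,z) = (x y², y z, x² z²)`.  Its `k`-th iterate is a monomial map whose
components have degrees `a k, b k, c k`, where `(a,b,c)' = (a+2b, b+c, 2a+2c)` and
`(a,b,c)(0) = (1,1,1)`.
-/

namespace Run7.h20.MonoGerm

/-- the germ -/
def F (z : Fin 3 → ℂ) : Fin 3 → ℂ := ![z 0 * z 1 ^ 2, z 1 * z 2, z 0 ^ 2 * z 2 ^ 2]

/-- scalar functions that behave like a monomial of total degree `D` -/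
structure Mono (g : (Fin 3 → ℂ) → ℂ) (D : ℕ) : Prop where
  smooth : ContDiff ℂ ⊤ g
  vanish : ∀ m < D, iteratedFDeriv ℂ m g 0 = 0
  diag : ∀ t : ℂ, g (fun _ => t) = t ^ D

theorem Mono.mul {g h : (Fin 3 → ℂ) → ℂ} {D E : ℕ} (hg : Mono g D) (hh : Mono h E) :
    Mono (fun z => g z * h z) (D + E) := by
  refine ⟨hg.smooth.mul hh.smooth, ?_, ?_⟩
  · intro m hm
    have hle := norm_iteratedFDeriv_mul_le (𝕜 := ℂ) (N := ⊤) hg.smooth hh.smooth (0 : Fin 3 → ℂ)
      (n := m) (by exact_mod_cast le_top)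
    have hz : ∑ i ∈ Finset.range (m + 1),
      (m.choose i : ℝ) * ‖iteratedFDeriv ℂ i g 0‖ * ‖iteratedFDeriv ℂ (m - i) h 0‖ = 0 := by
      apply Finset.sum_eq_zero
      intro i hi
      have hi' : i ≤ m := by
        have := Finset.mem_range.mp hi
        omega
      by_cases h1 : i < D
      · rw [hg.vanish i h1]; simp
      · have h2 : m - i < E := by omega
        rw [hh.vanish _ h2]; simp
    rw [hz] at hle
    exact norm_le_zero_iff.mp hle
  · intro t
    rw [hg.diag, hh.diag, pow_add]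

theorem mono_coord (i : Fin 3) : Mono (fun z => z i) 1 := by
  refine ⟨?_, ?_, ?_⟩
  · exact contDiff_apply ℂ ℂ i
  · intro m hm
    interval_cases m
    ext v
    simp [iteratedFDeriv_zero_apply]
  · intro t; simp

/-- A monomial-like function has a nonzero derivative of order equal to its degree. -/
theorem Mono.ne_zero {g : (Fin 3 → ℂ) → ℂ} {D : ℕ} (hg : Mono g D) :
    iteratedFDeriv ℂ D g 0 ≠ 0 := by
  intro h0
  let L : ℂ →L[ℂ] (Fin 3 → ℂ) := ContinuousLinearMap.pi fun _ => ContinuousLinearMap.id ℂ ℂ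
  have h1 := L.iteratedFDeriv_comp_right (f := g) hg.smooth (0 : ℂ) (i := D)
    (by exact_mod_cast le_top)
  have hL0 : L 0 = 0 := map_zero L
  rw [hL0, h0] at h1
  have hcomp : g ∘ L = fun t : ℂ => t ^ D := by
    funext t
    simpa [L] using hg.diag t
  rw [hcomp] at h1
  have h2 : iteratedDeriv D (fun t : ℂ => t ^ D) 0 = 0 := by
    rw [iteratedDeriv_eq_iteratedFDeriv, h1]
    simp
  rw [iteratedDeriv_pow] at h2
  simp [Nat.descFactorial_self] at h2
  exact (Nat.factorial_ne_zero D) (by exact_mod_cast h2)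

/-- The degree sequences of the three components of the iterates. -/
def deg : ℕ → ℕ × ℕ × ℕ
  | 0 => (1, 1, 1)
  | k + 1 => ((deg k).1 + 2 * (deg k).2.1, (deg k).2.1 + (deg k).2.2,
      2 * (deg k).1 + 2 * (deg k).2.2)

/-- first degree -/
def da (k : ℕ) : ℕ := (deg k).1
/-- second degree -/
def db (k : ℕ) : ℕ := (deg k).2.1
/-- third degree -/
def dc (k : ℕ) : ℕ := (deg k).2.2

theorem da_zero : da 0 = 1 := rfl
theorem db_zero : db 0 = 1 := rfl
theorem dc_zero : dc 0 = 1 := rfl
theorem da_succ (k : ℕ) : da (k + 1) = da k + 2 * db k := rfl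
theorem db_succ (k : ℕ) : db (k + 1) = db k + dc k := rfl
theorem dc_succ (k : ℕ) : dc (k + 1) = 2 * da k + 2 * dc k := rfl

theorem db_le_dc (k : ℕ) : db k ≤ dc k := by
  induction k with
  | zero => simp [db_zero, dc_zero]
  | succ k ih => rw [db_succ, dc_succ]; omega

theorem mono_iter (k : ℕ) :
    Mono (fun z => (F^[k] z) 0) (da k) ∧ Mono (fun z => (F^[k] z) 1) (db k) ∧
      Mono (fun z => (F^[k] z) 2) (dc k) := by
  induction k with
  | zero => exact ⟨mono_coord 0, mono_coord 1, mono_coord 2⟩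
  | succ k ih =>
    obtain ⟨h0, h1, h2⟩ := ih
    refine ⟨?_, ?_, ?_⟩
    · have h := h0.mul (h1.mul h1)
      have he : (fun z => (F^[k + 1] z) 0) =
          fun z => (F^[k] z) 0 * ((F^[k] z) 1 * (F^[k] z) 1) := by
        funext z
        rw [Function.iterate_succ_apply']
        simp [F, pow_two]
      rw [he, da_succ, two_mul]
      exact h
    · have h := h1.mul h2
      have he : (fun z => (F^[k + 1] z) 1) = fun z => (F^[k] z) 1 * (F^[k] z) 2 := by
        funext z
        rw [Function.iterate_succ_apply']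
        simp [F]
      rw [he, db_succ]
      exact h
    · have h := (h0.mul h0).mul (h2.mul h2)
      have he : (fun z => (F^[k + 1] z) 2) =
          fun z => ((F^[k] z) 0 * (F^[k] z) 0) * ((F^[k] z) 2 * (F^[k] z) 2) := by
        funext z
        rw [Function.iterate_succ_apply']
        simp [F, pow_two]
      rw [he, dc_succ, two_mul, two_mul]
      exact h

theorem contDiff_iter (k : ℕ) : ContDiff ℂ ⊤ (F^[k]) := by
  rw [contDiff_pi]
  intro i
  fin_cases i
  · exact (mono_iter k).1.smooth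
  · exact (mono_iter k).2.1.smooth
  · exact (mono_iter k).2.2.smooth

theorem comp_iter (k m : ℕ) (i : Fin 3) (v : Fin m → (Fin 3 → ℂ)) :
    iteratedFDeriv ℂ m (F^[k]) 0 v i = iteratedFDeriv ℂ m (fun z => (F^[k] z) i) 0 v := by
  have h := (ContinuousLinearMap.proj (R := ℂ) (φ := fun _ : Fin 3 => ℂ) i).iteratedFDeriv_comp_left
    (f := F^[k]) (x := 0) (contDiff_iter k).contDiffAt (i := m) (by exact_mod_cast le_top)
  have h2 : (fun z => (F^[k] z) i) =
      (ContinuousLinearMap.proj (R := ℂ) (φ := fun _ : Fin 3 => ℂ) i) ∘ (F^[k]) := by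
    funext z; simp
  rw [h2, h]
  simp

/-- The order at the origin of the iterates of the germ. -/
theorem order_iter (k : ℕ) :
    sInf {m : ℕ | iteratedFDeriv ℂ m (F^[k]) 0 ≠ 0} = min (da k) (db k) := by
  obtain ⟨h0, h1, h2⟩ := mono_iter k
  have hbc := db_le_dc k
  have hvan : ∀ m < min (da k) (db k), iteratedFDeriv ℂ m (F^[k]) 0 = 0 := by
    intro m hm
    have hma : m < da k := lt_of_lt_of_le hm (min_le_left _ _)
    have hmb : m < db k := lt_of_lt_of_le hm (min_le_right _ _)
    ext v i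
    rw [comp_iter]
    fin_cases i
    · simp [h0.vanish m hma]
    · simp [h1.vanish m hmb]
    · simp [h2.vanish m (lt_of_lt_of_le hmb hbc)]
  have hne : iteratedFDeriv ℂ (min (da k) (db k)) (F^[k]) 0 ≠ 0 := by
    intro hzero
    rcases le_total (da k) (db k) with hab | hab
    · rw [min_eq_left hab] at hzero
      apply h0.ne_zero
      ext v
      rw [← comp_iter, hzero]; simp
    · rw [min_eq_right hab] at hzero
      apply h1.ne_zero
      ext v
      rw [← comp_iter, hzero]; simp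
  apply le_antisymm
  · exact Nat.sInf_le hne
  · apply le_csInf ⟨_, hne⟩
    intro m hm
    by_contra hlt
    exact hm (hvan m (not_le.mp hlt))

/-- The auxiliary sequence `da - db`. -/
def dd (k : ℕ) : ℤ := (da k : ℤ) - db k

theorem dd_zero : dd 0 = 0 := by simp [dd, da_zero, db_zero]
theorem dd_one : dd 1 = 1 := by
  simp [dd, da_succ, db_succ, da_zero, db_zero, dc_zero]
theorem dd_rec (k : ℕ) : dd (k + 2) = dd (k + 1) - 2 * dd k := by
  simp only [dd, da_succ, db_succ, dc_succ]
  push_cast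
  ring

theorem dd_odd (k : ℕ) : Odd (dd (k + 1)) := by
  induction k using Nat.strong_induction_on with
  | _ k ih =>
    rcases k with _ | k
    · rw [dd_one]; exact odd_one
    · rw [dd_rec]
      exact (ih k (by omega)).sub_even (even_two_mul _)

/-- Lucas companion sequence. -/
def V : ℕ → ℤ
  | 0 => 2
  | 1 => 1
  | k + 2 => V (k + 1) - 2 * V k

theorem V_rec (k : ℕ) : V (k + 2) = V (k + 1) - 2 * V k := by rw [V]

/-- general addition formula for sequences satisfying the recursion -/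
theorem add_formula (s : ℕ → ℤ) (hs : ∀ k, s (k + 2) = s (k + 1) - 2 * s k) (n : ℕ) :
    ∀ k, s (k + 2 * n) + 2 ^ n * s k = V n * s (k + n) := by
  induction n using Nat.strong_induction_on with
  | _ n ih =>
    rcases n with _ | _ | n
    · intro k; simp [V]; ring
    · intro k
      have := hs k
      simp only [V, zero_add, mul_one, pow_one, one_mul]
      linarith
    · intro k
      have e1 := ih (n + 1) (by omega) (k + 1)
      have e0 := ih n (by omega) (k + 2)
      have r1 : s (k + 2 * (n + 2)) = s (k + 1 + 2 * (n + 1)) - 2 * s (k + 2 + 2 * n) := by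
        have := hs (k + 2 + 2 * n)
        rw [show k + 2 * (n + 2) = k + 2 + 2 * n + 2 by ring,
          show k + 1 + 2 * (n + 1) = k + 2 + 2 * n + 1 by ring]
        exact this
      have r0 := hs k
      rw [V_rec, r1]
      rw [show k + 1 + (n + 1) = k + (n + 2) by ring] at e1
      rw [show k + 2 + n = k + (n + 2) by ring] at e0
      have : s (k + 1 + 2 * (n + 1)) - 2 * s (k + 2 + 2 * n) + 2 ^ (n + 2) * s k
          = (s (k + 1 + 2 * (n + 1)) + 2 ^ (n + 1) * s (k + 1))
            - 2 * (s (k + 2 + 2 * n) + 2 ^ n * s (k + 2)) := by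
        rw [r0]; ring
      rw [this, e1, e0]; ring

theorem V_double (n : ℕ) : V (2 * n) = V n ^ 2 - 2 * 2 ^ n := by
  have h := add_formula V V_rec n 0
  simp only [zero_add] at h
  have h0 : V 0 = 2 := rfl
  rw [h0] at h
  linarith [h, sq (V n)]

theorem two_V_succ (n : ℕ) : 2 * V (n + 1) = V n - 7 * dd n ∧ 2 * dd (n + 1) = V n + dd n := by
  induction n with
  | zero => simp [V, dd_zero, dd_one]
  | succ n ih =>
    obtain ⟨h1, h2⟩ := ih
    rw [V_rec, dd_rec]
    constructor <;> linarith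

theorem V_norm (n : ℕ) : V n ^ 2 + 7 * dd n ^ 2 = 4 * 2 ^ n := by
  induction n with
  | zero => simp [V, dd_zero]
  | succ n ih =>
    obtain ⟨h1, h2⟩ := two_V_succ n
    have : 4 * (V (n + 1) ^ 2 + 7 * dd (n + 1) ^ 2) = 4 * (4 * 2 ^ (n + 1)) := by
      calc 4 * (V (n + 1) ^ 2 + 7 * dd (n + 1) ^ 2)
          = (2 * V (n + 1)) ^ 2 + 7 * (2 * dd (n + 1)) ^ 2 := by ring
        _ = (V n - 7 * dd n) ^ 2 + 7 * (V n + dd n) ^ 2 := by rw [h1, h2]
        _ = 8 * (V n ^ 2 + 7 * dd n ^ 2) := by ring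
        _ = 8 * (4 * 2 ^ n) := by rw [ih]
        _ = 4 * (4 * 2 ^ (n + 1)) := by ring
    linarith

/-- Some `V (2^s N)` is nonpositive. -/
theorem exists_V_nonpos (N : ℕ) (hN : 0 < N) : ∃ s : ℕ, V (2 ^ s * N) ≤ 0 := by
  by_contra hcon
  push Not at hcon
  -- y_s = 4 D_s - v_s^2 doubles relative to D_s
  have key : ∀ s : ℕ, 2 ^ s * (2 : ℤ) ^ (2 ^ s * N) ≤
      (4 * 2 ^ (2 ^ s * N) - V (2 ^ s * N) ^ 2) * 2 ^ N := by
    intro s
    induction s with
    | zero =>
      have hpos : (1 : ℤ) ≤ 4 * 2 ^ (2 ^ 0 * N) - V (2 ^ 0 * N) ^ 2 := by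
        have h := V_norm (2 ^ 0 * N)
        have hne : dd (2 ^ 0 * N) ≠ 0 := by
          obtain ⟨M, hM⟩ : ∃ M, 2 ^ 0 * N = M + 1 := ⟨N - 1, by simp; omega⟩
          rw [hM]
          intro h0
          have := dd_odd M
          rw [h0] at this
          exact (by decide : ¬ Odd (0 : ℤ)) this
        have : 0 < dd (2 ^ 0 * N) ^ 2 := by positivity
        linarith
      have h2 : (0 : ℤ) < 2 ^ N := by positivity
      simp only [pow_zero, one_mul] at hpos ⊢
      nlinarith
    | succ s ih =>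
      have hv : 0 < V (2 ^ s * N) := hcon s
      have hv' : 0 < V (2 ^ (s + 1) * N) := hcon (s + 1)
      have hd := V_double (2 ^ s * N)
      rw [show 2 * (2 ^ s * N) = 2 ^ (s + 1) * N by ring] at hd
      have hD : (2 : ℤ) ^ (2 ^ (s + 1) * N) = 2 ^ (2 ^ s * N) * 2 ^ (2 ^ s * N) := by
        rw [← pow_add]; congr 1; ring
      set v := V (2 ^ s * N) with hvdef
      set D : ℤ := 2 ^ (2 ^ s * N) with hDdef
      have hDpos : 0 < D := by positivity
      have hvsq : 2 * D ≤ v ^ 2 := by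
        rw [hd] at hv'
        linarith
      have hy : 4 * (D * D) - (v ^ 2 - 2 * D) ^ 2 = v ^ 2 * (4 * D - v ^ 2) := by ring
      rw [hd, hD, hy]
      have h2N : (0 : ℤ) < 2 ^ N := by positivity
      have h2s : (0 : ℤ) < 2 ^ s := by positivity
      have hY : 0 ≤ (4 * D - v ^ 2) * 2 ^ N := le_trans (by positivity) ih
      calc 2 ^ (s + 1) * (D * D) = (2 * D) * (2 ^ s * D) := by ring
        _ ≤ (2 * D) * ((4 * D - v ^ 2) * 2 ^ N) := by
            apply mul_le_mul_of_nonneg_left ih; positivity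
        _ ≤ v ^ 2 * ((4 * D - v ^ 2) * 2 ^ N) := by
            apply mul_le_mul_of_nonneg_right hvsq hY
        _ = v ^ 2 * (4 * D - v ^ 2) * 2 ^ N := by ring
  have hb := key (N + 3)
  have hDpos : (0 : ℤ) < 2 ^ (2 ^ (N + 3) * N) := by positivity
  have hle : (4 * 2 ^ (2 ^ (N + 3) * N) - V (2 ^ (N + 3) * N) ^ 2) * (2 : ℤ) ^ N ≤
      (4 * 2 ^ (2 ^ (N + 3) * N)) * 2 ^ N := by
    apply mul_le_mul_of_nonneg_right _ (by positivity)
    have := sq_nonneg (V (2 ^ (N + 3) * N))
    linarith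
  have h3 : (2 : ℤ) ^ (N + 3) * 2 ^ (2 ^ (N + 3) * N) ≤ (4 * 2 ^ (2 ^ (N + 3) * N)) * 2 ^ N :=
    le_trans hb hle
  have h4 : (2 : ℤ) ^ (N + 3) * 2 ^ (2 ^ (N + 3) * N) = 2 * ((4 * 2 ^ (2 ^ (N + 3) * N)) * 2 ^ N) := by
    rw [pow_add]; ring
  have h5 : (0 : ℤ) < (4 * 2 ^ (2 ^ (N + 3) * N)) * 2 ^ N := by positivity
  linarith

/-- The sign pattern of `dd` is not eventually periodic. -/
theorem sign_not_periodic (k0 N : ℕ) (hk0 : 0 < k0) (hN : 0 < N)
    (h : ∀ k, k0 ≤ k → (dd (k + N) < 0 ↔ dd k < 0)) : False := by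
  obtain ⟨s, hs⟩ := exists_V_nonpos N hN
  set n := 2 ^ s * N with hn
  have hmul : ∀ j k, k0 ≤ k → (dd (k + j * N) < 0 ↔ dd k < 0) := by
    intro j
    induction j with
    | zero => intro k _; simp
    | succ j ih =>
      intro k hk
      rw [show k + (j + 1) * N = (k + j * N) + N by ring]
      rw [h _ (by omega), ih k hk]
  have h1 : dd (k0 + n) < 0 ↔ dd k0 < 0 := hmul (2 ^ s) k0 le_rfl
  have h2 : dd (k0 + 2 * n) < 0 ↔ dd k0 < 0 := by
    have := hmul (2 * 2 ^ s) k0 le_rfl
    rwa [show 2 * 2 ^ s * N = 2 * n by rw [hn]; ring] at this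
  have hf := add_formula dd dd_rec n k0
  have hne : dd k0 ≠ 0 := by
    obtain ⟨M, rfl⟩ : ∃ M, k0 = M + 1 := ⟨k0 - 1, by omega⟩
    intro h0
    have := dd_odd M
    rw [h0] at this
    exact (by decide : ¬ Odd (0 : ℤ)) this
  have h2n : (0 : ℤ) < 2 ^ n := by positivity
  rcases lt_or_gt_of_ne hne with hneg | hpos
  · have e1 := h1.mpr hneg
    have e2 := h2.mpr hneg
    have : 0 ≤ V n * dd (k0 + n) := mul_nonneg_of_nonpos_of_nonpos hs e1.le
    nlinarith
  · have e1 : 0 ≤ dd (k0 + n) := by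
      by_contra hc
      exact absurd (h1.mp (not_le.mp hc)) (not_lt.mpr hpos.le)
    have e2 : 0 ≤ dd (k0 + 2 * n) := by
      by_contra hc
      exact absurd (h2.mp (not_le.mp hc)) (not_lt.mpr hpos.le)
    have : V n * dd (k0 + n) ≤ 0 := mul_nonpos_of_nonpos_of_nonneg hs e1
    nlinarith

theorem da_odd (k : ℕ) : Odd (da k) := by
  induction k with
  | zero => simp [da_zero]
  | succ k ih => rw [da_succ]; exact ih.add_even (even_two_mul _)

theorem dc_even (k : ℕ) : Even (dc (k + 1)) := by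
  rw [dc_succ]; exact (even_two_mul _).add (even_two_mul _)

theorem db_even (k : ℕ) : Even (db (k + 1)) := by
  induction k with
  | zero => simp [db_succ, db_zero, dc_zero]
  | succ k ih => rw [db_succ]; exact ih.add (dc_even k)

/-- parity of the order detects the sign -/
theorem odd_min_iff (k : ℕ) (hk : 0 < k) : Odd (min (da k) (db k)) ↔ dd k < 0 := by
  obtain ⟨M, rfl⟩ : ∃ M, k = M + 1 := ⟨k - 1, by omega⟩
  have ha := da_odd (M + 1)
  have hb := db_even M
  unfold dd
  rcases le_total (da (M + 1)) (db (M + 1)) with hab | hab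
  · rw [min_eq_left hab]
    have hne : da (M + 1) ≠ db (M + 1) := by
      intro he
      rw [he] at ha
      exact (Nat.not_even_iff_odd.mpr ha) hb
    constructor
    · intro _; omega
    · intro _; exact ha
  · rw [min_eq_right hab]
    constructor
    · intro h; exact absurd hb (Nat.not_even_iff_odd.mpr h)
    · intro h; omega

/-- The order sequence satisfies no linear recursion. -/
theorem no_recursion (d : ℕ) (a : Fin d → ℤ) (K : ℕ)
    (h : ∀ k : ℕ, K ≤ k → ((min (da (k + d)) (db (k + d)) : ℕ) : ℤ) =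
      ∑ i : Fin d, a i * ((min (da (k + i)) (db (k + i)) : ℕ) : ℤ)) : False := by
  let u : ℕ → ZMod 2 := fun k => ((min (da k) (db k) : ℕ) : ZMod 2)
  have hu : ∀ k, K ≤ k → u (k + d) = ∑ i : Fin d, (a i : ZMod 2) * u (k + i) := by
    intro k hk
    have := congrArg (Int.cast : ℤ → ZMod 2) (h k hk)
    rw [Int.cast_natCast, Int.cast_sum] at this
    simpa only [Int.cast_mul, Int.cast_natCast] using this
  let st : ℕ → (Fin d → ZMod 2) := fun k i => u (K + 1 + k + i)
  obtain ⟨x, y, hxy, hst⟩ := Finite.exists_ne_map_eq_of_infinite st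
  wlog hlt : x < y generalizing x y
  · exact this y x hxy.symm hst.symm (by omega)
  -- the states agree forever
  have hall : ∀ j, st (x + j) = st (y + j) := by
    intro j
    induction j with
    | zero => simpa using hst
    | succ j ih =>
      funext i
      have hi := i.2
      by_cases hlast : (i : ℕ) + 1 < d
      · have := congrFun ih ⟨i + 1, hlast⟩
        simp only [st] at this ⊢
        rw [show K + 1 + (x + (j + 1)) + (i : ℕ) = K + 1 + (x + j) + ((i : ℕ) + 1) by ring,
          show K + 1 + (y + (j + 1)) + (i : ℕ) = K + 1 + (y + j) + ((i : ℕ) + 1) by ring]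
        exact this
      · have hid : (i : ℕ) + 1 = d := by omega
        simp only [st]
        rw [show K + 1 + (x + (j + 1)) + (i : ℕ) = K + 1 + (x + j) + d by omega,
          show K + 1 + (y + (j + 1)) + (i : ℕ) = K + 1 + (y + j) + d by omega]
        rw [hu _ (by omega), hu _ (by omega)]
        apply Finset.sum_congr rfl
        intro l _
        have := congrFun ih l
        simp only [st] at this
        rw [this]
  have hper : ∀ j, u (K + 1 + (x + j) + d) = u (K + 1 + (y + j) + d) := by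
    intro j
    rw [hu _ (by omega), hu _ (by omega)]
    apply Finset.sum_congr rfl
    intro l _
    have := congrFun (hall j) l
    simp only [st] at this
    rw [this]
  apply sign_not_periodic (K + 1 + x + d) (y - x) (by omega) (by omega)
  intro k hk
  obtain ⟨j, rfl⟩ : ∃ j, k = K + 1 + (x + j) + d := ⟨k - (K + 1 + x + d), by omega⟩
  have h1 := hper j
  rw [← odd_min_iff _ (by omega), ← odd_min_iff _ (by omega)]
  rw [show K + 1 + (x + j) + d + (y - x) = K + 1 + (y + j) + d by omega]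
  simp only [u] at h1
  rw [← ZMod.natCast_eq_one_iff_odd, ← ZMod.natCast_eq_one_iff_odd, h1]

theorem F_contDiff : ContDiff ℂ ⊤ F := by
  have := contDiff_iter 1
  simpa using this

theorem F_analyticAt : AnalyticAt ℂ F 0 := by
  have h : ContDiffAt ℂ ⊤ F 0 := F_contDiff.contDiffAt
  exact h.analyticAt

theorem F_zero : F 0 = 0 := by
  funext i
  fin_cases i <;> simp [F]

/-- The Jacobian matrix. -/
def J (z : Fin 3 → ℂ) : Matrix (Fin 3) (Fin 3) ℂ :=
  !![z 1 ^ 2, 2 * z 0 * z 1, 0; 0, z 2, z 1; 2 * z 0 * z 2 ^ 2, 0, 2 * z 0 ^ 2 * z 2]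

theorem F_hasFDerivAt (z : Fin 3 → ℂ) :
    HasFDerivAt F (LinearMap.toContinuousLinearMap (Matrix.toLin' (J z))) z := by
  have hc : ∀ i : Fin 3, HasFDerivAt (fun w : Fin 3 → ℂ => w i)
      (ContinuousLinearMap.proj (R := ℂ) (φ := fun _ : Fin 3 => ℂ) i) z := fun i =>
    (ContinuousLinearMap.proj (R := ℂ) (φ := fun _ : Fin 3 => ℂ) i).hasFDerivAt
  rw [hasFDerivAt_pi']
  intro i
  fin_cases i
  · have h := (hc 0).mul ((hc 1).pow 2)
    refine (h.congr_fderiv ?_)
    ext v
    simp [J, Matrix.mulVec, dotProduct, Fin.sum_univ_three]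
    ring
  · have h := (hc 1).mul (hc 2)
    refine (h.congr_fderiv ?_)
    ext v
    simp [J, Matrix.mulVec, dotProduct, Fin.sum_univ_three]
    ring
  · have h := ((hc 0).pow 2).mul ((hc 2).pow 2)
    refine (h.congr_fderiv ?_)
    ext v
    simp [J, Matrix.mulVec, dotProduct, Fin.sum_univ_three]
    ring

theorem F_det (z : Fin 3 → ℂ) : (fderiv ℂ F z).det = (J z).det := by
  rw [(F_hasFDerivAt z).fderiv]
  simp [ContinuousLinearMap.det]

theorem F_det_zero : (fderiv ℂ F 0).det = 0 := by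
  rw [F_det, Matrix.det_fin_three]
  simp [J]

theorem F_dominant : ∀ ε : ℝ, 0 < ε → ∃ z : Fin 3 → ℂ, ‖z‖ < ε ∧ (fderiv ℂ F z).det ≠ 0 := by
  intro ε hε
  refine ⟨fun _ => ((ε / 2 : ℝ) : ℂ), ?_, ?_⟩
  · rw [pi_norm_lt_iff hε]
    intro i
    rw [Complex.norm_real, Real.norm_of_nonneg (by positivity)]
    linarith
  · rw [F_det, Matrix.det_fin_three]
    have hne : ((ε / 2 : ℝ) : ℂ) ≠ 0 := by
      exact_mod_cast (by positivity : (0 : ℝ) < ε / 2).ne'
    set t : ℂ := ((ε / 2 : ℝ) : ℂ) with ht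
    have : (J fun _ => t) 0 0 * (J fun _ => t) 1 1 * (J fun _ => t) 2 2 -
        (J fun _ => t) 0 0 * (J fun _ => t) 1 2 * (J fun _ => t) 2 1 -
        (J fun _ => t) 0 1 * (J fun _ => t) 1 0 * (J fun _ => t) 2 2 +
        (J fun _ => t) 0 1 * (J fun _ => t) 1 2 * (J fun _ => t) 2 0 +
        (J fun _ => t) 0 2 * (J fun _ => t) 1 0 * (J fun _ => t) 2 1 -
        (J fun _ => t) 0 2 * (J fun _ => t) 1 1 * (J fun _ => t) 2 0 = 6 * t ^ 6 := by
      simp [J]
      ring
    rw [this]
    exact mul_ne_zero (by norm_num) (pow_ne_zero _ hne)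

end Run7.h20.MonoGerm
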